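import Mathlib
import Pool.Agent.H.MP_a1e9e0_gt.A

namespace Pool.Agent.H.MP_6dbda4_lc

open MeasureTheory Set Cardinal Function

/-- the first uncountable well-order -/
abbrev W : Type := (Cardinal.aleph.{0} 1).ord.ToType

theorem W_Iio (a : W) : (Iio a).Countable := by
  have h := Cardinal.mk_Iio_lt a (by simp)
  rw [mk_toType, Cardinal.card_ord] at h
  exact le_aleph0_iff_set_countable.mp (Order.lt_succ_iff.mp (h.trans_eq Cardinal.succ_aleph0.symm))

theorem W_unc : ¬ (univ : Set W).Countable := by
  rw [← le_aleph0_iff_set_countable, mk_univ, mk_toType, Cardinal.card_ord, not_le]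
  exact aleph0_lt_aleph_one

theorem W_card : #W ≤ 𝔠 := by
  rw [mk_toType, Cardinal.card_ord]
  exact aleph_one_le_continuum

/-- Ulam: a finite measure for which all preimages of subsets of `W` are measurable and points are
null gives measure zero to everything over `W`. -/
theorem ulam {R : Type} [MeasurableSpace R] (γ : Measure R) [IsFiniteMeasure γ] (q : R → Option W)
    (hm : ∀ X : Set W, MeasurableSet (q ⁻¹' (some '' X))) (h0 : ∀ a, γ (q ⁻¹' (some '' {a})) = 0) :
    γ (q ⁻¹' (some '' univ)) = 0 := by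
  have hf : ∀ b : W, ∃ f : W → ℕ, InjOn f (Iio b) := fun b =>
    Set.countable_iff_exists_injOn.mp (W_Iio b)
  choose f hf using hf
  have hc : ∀ n : ℕ, {a : W | 0 < γ (q ⁻¹' (some '' {b | a < b ∧ f b a = n}))}.Countable := fun n =>
    Measure.countable_meas_pos_of_disjoint_iUnion (fun a => hm _) fun a a' haa => by
      refine Disjoint.preimage _ (disjoint_image_of_injective (Option.some_injective _) ?_)
      rw [Set.disjoint_left]
      rintro b ⟨h1, h2⟩ ⟨h3, h4⟩
      exact haa (hf b h1 h3 (h2.trans h4.symm))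
  obtain ⟨a, ha⟩ : ∃ a, a ∉ ⋃ n : ℕ,
      {a : W | 0 < γ (q ⁻¹' (some '' {b | a < b ∧ f b a = n}))} := by
    by_contra h
    push Not at h
    exact W_unc ((countable_iUnion hc).mono fun a _ => h a)
  simp only [mem_iUnion, mem_ofPred_eq, not_exists, not_lt, nonpos_iff_eq_zero] at ha
  refine measure_mono_null (t := (⋃ n : ℕ, q ⁻¹' (some '' {b | a < b ∧ f b a = n})) ∪
    ⋃ b ∈ insert a (Iio a), q ⁻¹' (some '' {b})) ?_ (measure_union_null (measure_iUnion_null ha)
      ((measure_biUnion_null_iff ((W_Iio a).insert a)).mpr fun b _ => h0 b))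
  rintro r ⟨b, -, hb⟩
  rcases lt_trichotomy a b with h | h | h
  · exact Or.inl (mem_iUnion.mpr ⟨f b a, b, ⟨h, rfl⟩, hb⟩)
  · exact Or.inr (mem_biUnion (x := b) (Or.inl h.symm) ⟨b, rfl, hb⟩)
  · exact Or.inr (mem_biUnion (x := b) (Or.inr h) ⟨b, rfl, hb⟩)

/-- Engelking–Karłowicz family -/
theorem ek (C : Type) [Nonempty C] (hC : #C ≤ 𝔠) : ∃ (P : Type) (e : P → (C → Bool) → ℕ), #P ≤ 𝔠 ∧
    ∀ J : Set (C → Bool), J.Countable → ∀ h : (C → Bool) → ℕ, ∃ p, ∀ i ∈ J, e p i = h i := by
  classical
  refine ⟨(ℕ → C) × (ℕ → (ℕ → Bool) × ℕ), fun p i =>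
    if h : ∃ n, (p.2 n).1 = i ∘ p.1 then (p.2 h.choose).2 else 0, ?_, fun J hJ h => ?_⟩
  · rw [mk_prod, lift_id, lift_id]
    have h1 : #(ℕ → C) ≤ 𝔠 := by
      rw [← power_def, mk_nat]
      exact (power_le_power_right hC).trans_eq continuum_power_aleph0
    exact (mul_le_mul' h1 (le_of_eq (by simp))).trans_eq (mul_eq_self aleph0_le_continuum)
  · rcases J.eq_empty_or_nonempty with rfl | hne
    · exact ⟨Classical.arbitrary _, by simp⟩
    obtain ⟨g, rfl⟩ := hJ.exists_eq_range hne
    have hs : ∀ m : ℕ × ℕ, ∃ c : C, g m.1 c = g m.2 c → g m.1 = g m.2 := fun m => by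
      by_cases e : g m.1 = g m.2
      · exact ⟨Classical.arbitrary _, fun _ => e⟩
      · obtain ⟨c, hc⟩ := Function.ne_iff.mp e
        exact ⟨c, fun e' => absurd e' hc⟩
    choose s hs using hs
    refine ⟨(s ∘ Nat.unpair, fun n => (g n ∘ s ∘ Nat.unpair, h (g n))), ?_⟩
    rintro _ ⟨n, rfl⟩
    have hx : ∃ k, g k ∘ s ∘ Nat.unpair = g n ∘ s ∘ Nat.unpair := ⟨n, rfl⟩
    simp only [dif_pos hx]
    have := congrFun hx.choose_spec (Nat.pair hx.choose n)
    simp only [comp_apply, Nat.unpair_pair] at this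
    rw [hs (hx.choose, n) this]

/-- measurable sets depend on countably many coordinates -/
theorem dep {X I : Type} [MeasurableSpace X] {B : Set (X × (I → Bool))} (hB : MeasurableSet B) :
    ∃ J : Set I, J.Countable ∧ ∀ x c c', (∀ i ∈ J, c i = c' i) → ((x, c) ∈ B ↔ (x, c') ∈ B) := by
  let m : MeasurableSpace (X × (I → Bool)) :=
    { MeasurableSet' := fun B => ∃ J : Set I, J.Countable ∧
        ∀ x c c', (∀ i ∈ J, c i = c' i) → ((x, c) ∈ B ↔ (x, c') ∈ B)
      measurableSet_empty := ⟨∅, countable_empty, by simp⟩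
      measurableSet_compl := fun s ⟨J, hJ, h⟩ => ⟨J, hJ, fun x c c' e => by
        simp only [mem_compl_iff, h x c c' e]⟩
      measurableSet_iUnion := fun f hf => by
        choose J hJ h using hf
        refine ⟨⋃ n, J n, countable_iUnion hJ, fun x c c' e => ?_⟩
        simp only [mem_iUnion]
        exact exists_congr fun n => h n x c c' fun i hi => e i (mem_iUnion.mpr ⟨n, hi⟩) }
  have h1 : @Measurable _ _ m _ (Prod.fst : X × (I → Bool) → X) := fun s _ =>
    ⟨∅, countable_empty, fun _ _ _ _ => Iff.rfl⟩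
  have h2 : @Measurable _ _ m _ (Prod.snd : X × (I → Bool) → I → Bool) :=
    @measurable_pi_lambda _ _ _ m _ _ fun i s _ =>
      ⟨{i}, countable_singleton i, fun x c c' e => by simp [e i rfl]⟩
  exact (h1.prodMk h2) hB

theorem trace {X : Type} [MeasurableSpace X] (ν : Measure X) (V : Set X)
    (h : ∀ B : Set X, MeasurableSet B → ν B ≠ 0 → (B ∩ V).Nonempty) :
    ∃ m : Measure V, ∀ B : Set X, MeasurableSet B → m (Subtype.val ⁻¹' B) = ν B := by
  have hc : (inferInstance : MeasurableSpace V) ≤
      (OuterMeasure.comap Subtype.val ν.toOuterMeasure).caratheodory := by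
    rintro _ ⟨B, hB, rfl⟩ t
    simp only [OuterMeasure.comap_apply, Measure.coe_toOuterMeasure]
    rw [image_inter_preimage, image_sdiff_preimage, measure_inter_add_sdiff _ hB]
  refine ⟨OuterMeasure.toMeasure _ hc, fun B hB => ?_⟩
  rw [toMeasure_apply _ _ (measurable_subtype_coe hB), OuterMeasure.comap_apply,
    Measure.coe_toOuterMeasure, Subtype.image_preimage_coe]
  refine le_antisymm (measure_mono inter_subset_right) ?_
  rw [← measure_toMeasurable (V ∩ B)]
  refine measure_mono_ae (ae_le_set.mpr ?_)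
  by_contra h0
  obtain ⟨x, hx, hV⟩ := h _ (hB.diff (measurableSet_toMeasurable _ _)) h0
  exact hx.2 (subset_toMeasurable _ _ ⟨hV, hx.1⟩)

/-- a thick set meeting every vertical line at most once -/
theorem thick {I P : Type} (hP : #P ≤ 𝔠) (e : P → I → ℕ)
    (he : ∀ J : Set I, J.Countable → ∀ h : I → ℕ, ∃ p, ∀ i ∈ J, e p i = h i)
    (μ : Measure (I → Bool)) [IsProbabilityMeasure μ] :
    ∃ V : Set (unitInterval × (I → Bool)), InjOn Prod.fst V ∧
      ∀ B, MeasurableSet B → (volume.prod μ) B ≠ 0 → (B ∩ V).Nonempty := by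
  let K := {B : Set unitInterval // MeasurableSet B ∧ volume B ≠ 0}
  have hI : #K ≤ 𝔠 := by
    have h := MeasurableSpace.cardinal_measurableSet_le_continuum
      (s := MeasurableSpace.countableGeneratingSet unitInterval)
      ((le_aleph0_iff_set_countable.mpr MeasurableSpace.countable_countableGeneratingSet).trans
        aleph0_le_continuum)
    rw [MeasurableSpace.generateFrom_countableGeneratingSet] at h
    exact (mk_subtype_le_of_subset fun B hB => hB.1).trans h
  obtain ⟨t, ht, htP⟩ := Pool.Agent.H.MP_a1e9e0_gt.A.inj (fun i : K × P => i.1.1) fun i => by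
    obtain ⟨K, hK, hc, h0⟩ := i.1.2.1.exists_lt_isCompact (pos_iff_ne_zero.mpr i.1.2.2)
    obtain ⟨f, hf, -, hi⟩ := hc.isClosed.exists_nat_bool_injection_of_not_countable
      fun h => h0.ne' (h.measure_zero _)
    have h1 : 𝔠 ≤ #(i.1.1) := by
      have := mk_le_mk_of_subset (hf.trans hK)
      rw [mk_range_eq _ hi] at this
      simpa using this
    refine le_trans ?_ h1
    rw [mk_prod, lift_id, lift_id]
    exact (mul_le_mul' hI hP).trans_eq (mul_eq_self aleph0_le_continuum)
  refine ⟨range fun k : K × P => (t k, fun i => decide (e k.2 i = 1)), ?_, fun B hB h0 => ?_⟩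
  · rintro _ ⟨k, rfl⟩ _ ⟨k', rfl⟩ h
    rw [ht h]
  · obtain ⟨J, hJ, hd⟩ := dep hB
    obtain ⟨y, hy⟩ : ∃ y, volume ((fun x => (x, y)) ⁻¹' B) ≠ 0 := by
      by_contra h
      push Not at h
      rw [Measure.prod_apply_symm hB] at h0
      simp [h] at h0
    obtain ⟨p, hp⟩ := he J hJ fun i => if y i then 1 else 0
    refine ⟨_, ?_, ⟨(⟨_, measurable_prodMk_right hB, hy⟩, p), rfl⟩⟩
    refine (hd _ y _ fun i hi => ?_).mp (htP (⟨_, measurable_prodMk_right hB, hy⟩, p))
    rw [hp i hi]
    cases y i <;> simp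

/-- the fair coin -/
noncomputable def coin : Measure Bool :=
  (2⁻¹ : ENNReal) • Measure.dirac true + (2⁻¹ : ENNReal) • Measure.dirac false

instance : IsProbabilityMeasure coin := ⟨by simp [coin, ENNReal.inv_two_add_inv_two]⟩

/-- shift of the second coordinate -/
def sh {X I : Type} (c : I → Bool) (w : X × (I → Bool)) : X × (I → Bool) :=
  (w.1, fun i => xor (w.2 i) (c i))

theorem sh_meas {X I Y : Type} [MeasurableSpace X] [MeasurableSpace Y] {c : Y → I → Bool}
    {w : Y → X × (I → Bool)} (hc : Measurable c) (hw : Measurable w) :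
    Measurable fun y => sh (c y) (w y) :=
  hw.fst.prodMk (measurable_pi_lambda _ fun i =>
    (Measurable.of_discrete (f := fun p : Bool × Bool => xor p.1 p.2)).comp
      (((measurable_pi_apply i).comp hw.snd).prodMk ((measurable_pi_apply i).comp hc)))

theorem sh_inv {X I : Type} [MeasurableSpace X] (ν : Measure X) [SFinite ν] (c : I → Bool)
    {B : Set (X × (I → Bool))} (hB : MeasurableSet B) :
    ν.prod (Measure.infinitePi fun _ : I => coin) (sh c ⁻¹' B) =
      ν.prod (Measure.infinitePi fun _ : I => coin) B := by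
  have h1 : (Measure.infinitePi fun _ : I => coin).map (fun x i => xor (x i) (c i)) =
      Measure.infinitePi fun _ : I => coin := by
    rw [Measure.infinitePi_map_pi (fun _ : I => coin) (f := fun i b => xor b (c i))
      fun _ => Measurable.of_discrete]
    congr 1
    funext i
    rw [coin, Measure.map_add _ _ Measurable.of_discrete, Measure.map_smul, Measure.map_smul,
      Measure.map_dirac, Measure.map_dirac]
    cases c i
    · rfl
    · exact add_comm _ _
  have hm : Measurable (fun (x : I → Bool) i => xor (x i) (c i)) :=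
    measurable_pi_lambda _ fun i => (Measurable.of_discrete (f := fun b => xor b (c i))).comp
      (measurable_pi_apply i)
  have h2 := Measure.map_prod_map ν (Measure.infinitePi fun _ : I => coin) measurable_id hm
  rw [h1, Measure.map_id] at h2
  conv_rhs => rw [h2]
  rw [Measure.map_apply (measurable_id.prodMap hm) hB]
  rfl

/-- the two-valued measure of the filter of sets co-countable in the first coordinate -/
theorem filt (P : Type) [Nonempty P] : ∃ (_ : MeasurableSpace (W × P)) (ρ : Measure (W × P)),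
    ρ univ = 1 ∧ (∀ A : Set (W × P), (Prod.fst '' A).Countable → MeasurableSet A ∧ ρ A = 0) ∧
    ∀ A, MeasurableSet A → ρ A ≠ 0 → ∀ p, ∃ a, (a, p) ∈ A := by
  classical
  let o : OuterMeasure (W × P) :=
    { measureOf := fun A => if (Prod.fst '' A).Countable then 0 else 1
      empty := by simp
      mono := fun {s t} h => by
        by_cases ht : (Prod.fst '' t).Countable
        · rw [if_pos ht, if_pos (ht.mono (image_mono h))]
        · rw [if_neg ht]; split_ifs <;> simp
      iUnion_nat := fun s _ => by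
        by_cases h : ∀ n, (Prod.fst '' s n).Countable
        · rw [if_pos (by rw [image_iUnion]; exact countable_iUnion h)]; simp
        · push Not at h
          obtain ⟨n, hn⟩ := h
          refine le_trans ?_ (ENNReal.le_tsum n)
          rw [if_neg hn]; split_ifs <;> simp }
  have ho : ∀ A, o A = if (Prod.fst '' A).Countable then 0 else 1 := fun _ => rfl
  have hu : ∀ A : Set (W × P), (∀ a, ∃ p, (a, p) ∈ A) → o A = 1 := fun A h => by
    rw [ho, if_neg]
    refine fun h' => W_unc (h'.mono fun a _ => ?_)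
    obtain ⟨p, hp⟩ := h a
    exact ⟨_, hp, rfl⟩
  refine ⟨o.caratheodory, @OuterMeasure.toMeasure _ o.caratheodory o le_rfl, ?_, fun A hA => ?_,
    fun A hA h0 p => ?_⟩
  · rw [@toMeasure_apply _ o.caratheodory o _ _ MeasurableSet.univ]
    exact hu _ fun a => ⟨Classical.arbitrary P, trivial⟩
  · have h0 : o A = 0 := by rw [ho, if_pos hA]
    have hm : MeasurableSet[o.caratheodory] A := by
      rw [OuterMeasure.isCaratheodory_iff_le]
      intro t
      rw [measure_mono_null inter_subset_right h0, zero_add]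
      exact measure_mono sdiff_subset
    exact ⟨hm, by rw [@toMeasure_apply _ o.caratheodory o _ _ hm, h0]⟩
  · rw [@toMeasure_apply _ o.caratheodory o _ _ hA] at h0
    by_contra h
    push Not at h
    have h1 := hA univ
    rw [hu univ fun a => ⟨p, trivial⟩, hu (univ \ A) fun a => ⟨p, trivial, h a⟩, univ_inter,
      ho A] at h1
    rw [ho] at h0
    split_ifs at h0 h1 with h2
    · exact h0 rfl
    · norm_num at h1

end Pool.Agent.H.MP_6dbda4_lc
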